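import Mathlib

/-!
A connected 2-terminal graph on 9 vertices, hence not isomorphic to the path on 5 vertices.
-/

namespace Pool.Agent.Results.MP_3d4fca_co.TwoTerminal

/-- The `r`-ball of `v` in `G`: all vertices `u` at distance at most `r` from `v`. The distance is
`SimpleGraph.edist`, which is `⊤` between vertices of different components. -/
def Ball {V : Type*} (G : SimpleGraph V) (r : ℕ) (v : V) : Set V := {u | G.edist v u ≤ r}

/-- `G` is `r`-twin-free: any two distinct vertices have different `r`-balls. -/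
def TwinFree {V : Type*} (G : SimpleGraph V) (r : ℕ) : Prop :=
  ∀ u v : V, u ≠ v → Ball G r u ≠ Ball G r v

/-- `G` is `r`-terminal: `G` is `r`-twin-free, and for every vertex `v` the graph obtained from `G`
by deleting `v` (the subgraph induced on the other vertices, with its own distance) is not
`r`-twin-free. -/
def Terminal {V : Type*} (G : SimpleGraph V) (r : ℕ) : Prop :=
  TwinFree G r ∧ ∀ v : V, ¬ TwinFree (G.induce {v}ᶜ) r

lemma mem_ball_two {V : Type*} (G : SimpleGraph V) (u v : V) :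
    u ∈ Ball G 2 v ↔ v = u ∨ G.Adj v u ∨ ∃ w, G.Adj v w ∧ G.Adj w u := by
  have h := (G.two_lt_edist_iff (u := v) (v := u)).not
  simp only [Ball, Set.mem_ofPred_eq]
  rw [← not_lt]
  have h2 : ((2 : ℕ) : ℕ∞) = 2 := rfl
  rw [h2, h]
  rw [not_and_or, not_and_or, not_not, not_not, ← Ne, ← Set.nonempty_iff_ne_empty]
  refine or_congr Iff.rfl (or_congr Iff.rfl ?_)
  constructor
  · rintro ⟨w, hw⟩
    rw [SimpleGraph.mem_commonNeighbors] at hw
    exact ⟨w, hw.1, hw.2.symm⟩
  · rintro ⟨w, h1, h2⟩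
    exact ⟨w, (SimpleGraph.mem_commonNeighbors ..).2 ⟨h1, h2.symm⟩⟩

/-- The 14 edges of the example. -/
def edges : List (Fin 9 × Fin 9) :=
  [(0, 1), (0, 2), (1, 3), (1, 4), (2, 5), (2, 6), (2, 7), (3, 4), (3, 5), (3, 8), (4, 8), (5, 8),
    (6, 7), (6, 8)]

/-- The adjacency test of the example. -/
def adjb (x y : Fin 9) : Bool := edges.contains (x, y) || edges.contains (y, x)

/-- The example: a graph on 9 vertices with 14 edges. -/
def G9 : SimpleGraph (Fin 9) where
  Adj x y := adjb x y = true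
  symm := ⟨by decide⟩
  loopless := ⟨by decide⟩

instance : DecidableRel G9.Adj := fun x y => inferInstanceAs (Decidable (adjb x y = true))

/-- membership in the 2-ball as a Boolean, after deleting `v`. -/
def inBall (x y : Fin 9) : Bool :=
  (x == y) || adjb x y || (List.finRange 9).any fun w => adjb x w && adjb w y

def inBallDel (v x y : Fin 9) : Bool :=
  (x == y) || adjb x y || (List.finRange 9).any fun w => w != v && (adjb x w && adjb w y)

lemma mem_ball_G9 (x y : Fin 9) : y ∈ Ball G9 2 x ↔ inBall x y = true := by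
  rw [mem_ball_two]
  simp [inBall, G9, List.any_eq_true, or_assoc]

lemma mem_ball_del (v : Fin 9) (x y : ({v}ᶜ : Set (Fin 9))) :
    y ∈ Ball (G9.induce {v}ᶜ) 2 x ↔ inBallDel v x y = true := by
  rw [mem_ball_two]
  simp only [inBallDel, G9, SimpleGraph.comap_adj, Function.Embedding.subtype_apply, Bool.or_eq_true, beq_iff_eq,
    List.any_eq_true, Bool.and_eq_true, bne_iff_ne, or_assoc, Subtype.ext_iff]
  refine or_congr Iff.rfl (or_congr Iff.rfl ?_)
  constructor
  · rintro ⟨w, h1, h2⟩
    exact ⟨w.1, List.mem_finRange _, w.2, h1, h2⟩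
  · rintro ⟨w, -, hw, h1, h2⟩
    exact ⟨⟨w, hw⟩, h1, h2⟩

lemma twinFree_G9 : TwinFree G9 2 := by
  have key : ∀ u v : Fin 9, u ≠ v → ∃ x, inBall u x ≠ inBall v x := by decide
  intro u v huv h
  obtain ⟨x, hx⟩ := key u v huv
  apply hx
  have := Set.ext_iff.1 h x
  rw [mem_ball_G9, mem_ball_G9] at this
  exact Bool.eq_iff_iff.2 this

lemma not_twinFree_del (v : Fin 9) : ¬ TwinFree (G9.induce {v}ᶜ) 2 := by
  have key : ∀ v : Fin 9, ∃ x y : Fin 9, x ≠ v ∧ y ≠ v ∧ x ≠ y ∧
      ∀ z, z ≠ v → inBallDel v x z = inBallDel v y z := by decide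
  obtain ⟨x, y, hx, hy, hxy, h⟩ := key v
  intro hT
  apply hT ⟨x, hx⟩ ⟨y, hy⟩ (fun he => hxy (congrArg Subtype.val he))
  ext z
  rw [mem_ball_del, mem_ball_del]
  rw [h z.1 z.2]

lemma connected_G9 : G9.Connected := by
  have key : ∀ u : Fin 9, u = 0 ∨ G9.Adj 0 u ∨ (∃ w, G9.Adj 0 w ∧ G9.Adj w u) ∨
      ∃ w w', G9.Adj 0 w ∧ G9.Adj w w' ∧ G9.Adj w' u := by decide
  have h0 : ∀ u : Fin 9, G9.Reachable 0 u := by
    intro u
    rcases key u with h | h | ⟨w, h1, h2⟩ | ⟨w, w', h1, h2, h3⟩
    · rw [h]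
    · exact h.reachable
    · exact h1.reachable.trans h2.reachable
    · exact (h1.reachable.trans h2.reachable).trans h3.reachable
  have : Nonempty (Fin 9) := ⟨0⟩
  exact SimpleGraph.Connected.mk (fun u v => (h0 u).symm.trans (h0 v))

/-- There is a connected 2-terminal graph which is not isomorphic to the path on 5 vertices; there
is even one on 9 vertices. -/
theorem result : ∃ G : SimpleGraph (Fin 9), G.Connected ∧ Terminal G 2 ∧
    IsEmpty (G ≃g SimpleGraph.pathGraph 5) := by
  refine ⟨G9, connected_G9, ⟨twinFree_G9, not_twinFree_del⟩, ⟨fun e => ?_⟩⟩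
  have := Fintype.card_congr e.toEquiv
  simp at this

end Pool.Agent.Results.MP_3d4fca_co.TwoTerminal
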